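import Pool.Agent.H20.RCC.Stmts

set_option autoImplicit false

namespace Pool.RCC

theorem CDX_thm : CDXStmt := by
  intro a o c g ha ho hc hg
  unfold ca cO cc cg cd
  refine ⟨?_, ?_, ?_, ?_⟩ <;> omega

end Pool.RCC
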